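import Pool.Agent.Helper81.SB.Basic

/-!
# SB packet OSC: oscillations of an unbounded chain (Todorcevic)
-/

set_option autoImplicit false

namespace Pool.Agent.Helper64.SB

open Set Cardinal Filter Pool.Agent.Helper81.SB

/-- `A` branches at `n`. -/
def Br (g : W → ℕ → ℕ) (A : Set W) (n : ℕ) : Prop := ∀ N : ℕ, ¬ {α | α ∈ A ∧ N ≤ g α n}.Countable

/-- the members of `A` agree with `s` below `L`. -/
def Cn (g : W → ℕ → ℕ) (A : Set W) (s : ℕ → ℕ) (L : ℕ) : Prop := ∀ α ∈ A, ∀ i < L, g α i = s i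

theorem Br.unc {g : W → ℕ → ℕ} {A : Set W} {n : ℕ} (h : Br g A n) : ¬ A.Countable := fun hc =>
  h 0 (hc.mono fun _ hα => hα.1)

theorem Br.nonempty {g : W → ℕ → ℕ} {A : Set W} {n : ℕ} (h : Br g A n) : A.Nonempty := by
  rcases A.eq_empty_or_nonempty with h0 | h0
  · exact absurd (by rw [h0]; exact countable_empty) h.unc
  · exact h0

theorem F1 {g : W → ℕ → ℕ} (hg : Scale g) {A : Set W} (hA : ¬ A.Countable) : ∃ n, Br g A n := by
  by_contra hcon
  unfold Br at hcon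
  push Not at hcon
  choose N hN using hcon
  have hU : (⋃ n, {α | α ∈ A ∧ N n ≤ g α n}).Countable := countable_iUnion hN
  have hA2 : ¬ (A \ ⋃ n, {α | α ∈ A ∧ N n ≤ g α n}).Countable := by
    intro hc
    exact hA ((hc.union hU).mono (by intro x hx; by_cases h : x ∈ ⋃ n, {α | α ∈ A ∧ N n ≤ g α n}
                                     · exact Or.inr h
                                     · exact Or.inl ⟨hx, h⟩))
  obtain ⟨α, hα, n, hn⟩ := hg.unb _ hA2 N
  exact hα.2 (mem_iUnion.2 ⟨n, hα.1, hn.le⟩)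

theorem thin (g : W → ℕ → ℕ) {A : Set W} (hA : ¬ A.Countable) (L : ℕ) :
    ∃ A' ⊆ A, ¬ A'.Countable ∧ ∃ s, Cn g A' s L := by
  obtain ⟨r, hr⟩ := exists_fiber hA (fun α => (fun i : Fin L => g α i))
  refine ⟨_, fun x hx => hx.1, hr, fun i => if h : i < L then r ⟨i, h⟩ else 0, ?_⟩
  intro α hα i hi
  have h1 := congrFun hα.2 ⟨i, hi⟩
  simp only [hi, dif_pos]
  exact h1

/-- pigeonhole for branching -/
theorem br_fiber {g : W → ℕ → ℕ} {A : Set W} {n : ℕ} (h : Br g A n) {ι : Type} [Finite ι]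
    (f : W → ι) : ∃ i, Br g {α | α ∈ A ∧ f α = i} n := by
  by_contra hcon
  unfold Br at hcon
  push Not at hcon
  choose N hN using hcon
  cases nonempty_fintype ι
  have hb : ∃ M, ∀ i, N i ≤ M := ⟨∑ i, N i, fun i =>
    Finset.single_le_sum (f := N) (fun _ _ => Nat.zero_le _) (Finset.mem_univ i)⟩
  obtain ⟨M, hM⟩ := hb
  apply h M
  refine (countable_iUnion hN).mono ?_
  intro α hα
  exact mem_iUnion.2 ⟨f α, ⟨hα.1, rfl⟩, (hM _).trans hα.2⟩

theorem F2 {g : W → ℕ → ℕ} (hg : Scale g) {A : Set W} (hA : ¬ A.Countable) (s : ℕ → ℕ) (L : ℕ)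
    (hs : Cn g A s L) : ∃ n, L ≤ n ∧ ∃ A' ⊆ A, ∃ s', Cn g A' s' n ∧ Br g A' n := by
  classical
  have hex := F1 hg hA
  set n := Nat.find hex with hn
  have hbr : Br g A n := Nat.find_spec hex
  have hmin : ∀ m < n, ¬ Br g A m := fun m hm => Nat.find_min hex hm
  have hLn : L ≤ n := by
    by_contra hlt
    push Not at hlt
    have h1 := hbr (s n + 1)
    apply h1
    have : {α | α ∈ A ∧ s n + 1 ≤ g α n} = ∅ := by
      ext α
      simp only [mem_ofPred_eq, mem_empty_iff_false, iff_false, not_and]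
      intro hα hle
      have h2 := hs α hα n hlt
      omega
    rw [this]
    exact countable_empty
  refine ⟨n, hLn, ?_⟩
  rcases Nat.eq_zero_or_pos n with h0 | hpos
  · refine ⟨A, subset_rfl, s, ?_, hbr⟩
    intro α _ i hi
    omega
  · have h1 := hmin (n - 1) (by omega)
    unfold Br at h1
    push Not at h1
    obtain ⟨N₁, hN₁⟩ := h1
    obtain ⟨r, hr⟩ := br_fiber hbr
      (fun α => (fun i : Fin n => (⟨min (g α i) N₁, by omega⟩ : Fin (N₁ + 1))))
    refine ⟨{α | (α ∈ A ∧ (fun i : Fin n => (⟨min (g α i) N₁, by omega⟩ : Fin (N₁ + 1))) = r) ∧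
      g α (n - 1) < N₁}, fun x hx => hx.1.1, fun i => if h : i < n then (r ⟨i, h⟩ : ℕ) else 0, ?_, ?_⟩
    · intro α hα i hi
      have h2 := congrArg Fin.val (congrFun hα.1.2 ⟨i, hi⟩)
      have h3 : g α i ≤ g α (n - 1) := hg.mono α (by omega)
      have h4 := hα.2
      simp only at h2
      simp only [hi, dif_pos]
      rw [← h2]
      omega
    · intro N hc
      apply hr N
      refine (hc.union hN₁).mono ?_
      intro α hα
      by_cases h5 : g α (n - 1) < N₁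
      · exact Or.inl ⟨⟨hα.1, h5⟩, hα.2⟩
      · exact Or.inr ⟨hα.1.1, not_lt.1 h5⟩

theorem exists_delta (g : W → ℕ → ℕ) (Γ : Set W) : ∃ δ : W, ∀ (L : ℕ) (s : ℕ → ℕ),
    ¬ {α | α ∈ Γ ∧ ∀ i < L, g α i = s i}.Countable → ∃ α ∈ Γ, (∀ i < L, g α i = s i) ∧ α < δ := by
  classical
  let F : (Σ L : ℕ, (Fin L → ℕ)) → W := fun p =>
    if h : {α | α ∈ Γ ∧ ∀ i : Fin p.1, g α i = p.2 i}.Nonempty then h.some else Classical.arbitrary W
  obtain ⟨δ, hδ⟩ := W_bdd (range F) (countable_range F)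
  refine ⟨δ, ?_⟩
  intro L s hunc
  have hne : {α | α ∈ Γ ∧ ∀ i < L, g α i = s i}.Nonempty := by
    rcases Set.eq_empty_or_nonempty {α | α ∈ Γ ∧ ∀ i < L, g α i = s i} with h0 | h0
    · exact absurd (by rw [h0]; exact countable_empty) hunc
    · exact h0
  have hne2 : {α | α ∈ Γ ∧ ∀ i : Fin L, g α i = s i}.Nonempty := by
    obtain ⟨α, hα⟩ := hne
    exact ⟨α, hα.1, fun i => hα.2 i i.2⟩
  have hF : F ⟨L, fun i => s i⟩ = hne2.some := by
    simp only [F]
    rw [dif_pos hne2]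
  have hmem := hne2.some_mem
  refine ⟨hne2.some, hmem.1, fun i hi => hmem.2 ⟨i, hi⟩, ?_⟩
  rw [← hF]
  exact hδ _ ⟨_, rfl⟩

/-- the state of the induction -/
def St (g : W → ℕ → ℕ) (Γ Γ₁ : Set W) (m k : ℕ) : Prop :=
  ∃ (L : ℕ) (s t : ℕ → ℕ) (B : Set W), m ≤ L ∧ B ⊆ Γ₁ ∧
    ¬ {α | α ∈ Γ ∧ ∀ i < L, g α i = s i}.Countable ∧ Cn g B t L ∧ Br g B L ∧
    {n | n + 1 < L ∧ s n ≤ t n ∧ t (n + 1) < s (n + 1)}.ncard = k

theorem st_zero {g : W → ℕ → ℕ} (hg : Scale g) {Γ Γ₁ : Set W} (h1 : Γ₁ ⊆ Γ) (hΓ₁ : ¬ Γ₁.Countable)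
    (m : ℕ) : St g Γ Γ₁ m 0 := by
  obtain ⟨A, hA, hAu, s, hs⟩ := thin g hΓ₁ m
  obtain ⟨n, hn, A', hA', s', hs', hbr⟩ := F2 hg hAu s m hs
  refine ⟨n, s', s', A', hn, hA'.trans hA, ?_, hs', hbr, ?_⟩
  · intro hc
    apply hbr.unc
    refine hc.mono ?_
    intro α hα
    exact ⟨h1 (hA (hA' hα)), hs' α hα⟩
  · have : {i | i + 1 < n ∧ s' i ≤ s' i ∧ s' (i + 1) < s' (i + 1)} = ∅ := by
      ext i
      simp
    rw [this, ncard_empty]

theorem st_succ {g : W → ℕ → ℕ} (hg : Scale g) {Γ Γ₁ : Set W} {m k : ℕ}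
    (h : St g Γ Γ₁ m k) : St g Γ Γ₁ m (k + 1) := by
  obtain ⟨L, s, t, B, hmL, hB, hunc, hCB, hBr, hcard⟩ := h
  -- A ⊆ Γ[s,L], constant restriction to [0,L+1)
  obtain ⟨A, hA, hAu, s0, hs0⟩ := thin g hunc (L + 1)
  obtain ⟨n₁, hn₁, A', hA', s', hs', hbrA⟩ := F2 hg hAu s0 (L + 1) hs0
  obtain ⟨α₀, hα₀⟩ := hbrA.nonempty
  have hs's : ∀ i < L, s' i = s i := by
    intro i hi
    rw [← hs' α₀ hα₀ i (by omega)]
    exact (hA (hA' hα₀)).2 i hi
  have hs'mono : ∀ i j, i ≤ j → j < n₁ → s' i ≤ s' j := by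
    intro i j hij hj
    rw [← hs' α₀ hα₀ i (by omega), ← hs' α₀ hα₀ j hj]
    exact hg.mono α₀ hij
  -- B'
  obtain ⟨B', hB', hB'u, t0, ht0⟩ := thin g (hBr (s' (n₁ - 1))) (n₁ + 1)
  obtain ⟨n₂, hn₂, B'', hB'', t', ht', hbrB⟩ := F2 hg hB'u t0 (n₁ + 1) ht0
  obtain ⟨β₀, hβ₀⟩ := hbrB.nonempty
  have ht't : ∀ i < L, t' i = t i := by
    intro i hi
    rw [← ht' β₀ hβ₀ i (by omega)]
    exact hCB β₀ (hB' (hB'' hβ₀)).1 i hi
  have ht'mono : ∀ i j, i ≤ j → j < n₂ → t' i ≤ t' j := by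
    intro i j hij hj
    rw [← ht' β₀ hβ₀ i (by omega), ← ht' β₀ hβ₀ j hj]
    exact hg.mono β₀ hij
  have ht'L : s' (n₁ - 1) ≤ t' L := by
    rw [← ht' β₀ hβ₀ L (by omega)]
    exact (hB' (hB'' hβ₀)).2
  -- A''
  obtain ⟨A'', hA'', hA''u, s'', hs''⟩ := thin g (hbrA (t' (n₂ - 1) + 1)) n₂
  have hA''ne : A''.Nonempty := by
    rcases A''.eq_empty_or_nonempty with h0 | h0
    · exact absurd (by rw [h0]; exact countable_empty) hA''u
    · exact h0
  obtain ⟨α₁, hα₁⟩ := hA''ne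
  have hs''s' : ∀ i < n₁, s'' i = s' i := by
    intro i hi
    rw [← hs'' α₁ hα₁ i (by omega)]
    exact hs' α₁ (hA'' hα₁).1 i hi
  have hs''mono : ∀ i j, i ≤ j → j < n₂ → s'' i ≤ s'' j := by
    intro i j hij hj
    rw [← hs'' α₁ hα₁ i (by omega), ← hs'' α₁ hα₁ j hj]
    exact hg.mono α₁ hij
  have hs''n₁ : t' (n₂ - 1) + 1 ≤ s'' n₁ := by
    rw [← hs'' α₁ hα₁ n₁ (by omega)]
    exact (hA'' hα₁).2
  refine ⟨n₂, s'', t', B'', by omega, ?_, ?_, ht', hbrB, ?_⟩
  · intro β hβ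
    exact hB (hB' (hB'' hβ)).1
  · intro hc
    apply hA''u
    refine hc.mono ?_
    intro α hα
    exact ⟨(hA (hA' (hA'' hα).1)).1, hs'' α hα⟩
  · have heq : {n | n + 1 < n₂ ∧ s'' n ≤ t' n ∧ t' (n + 1) < s'' (n + 1)} =
        insert (n₁ - 1) {n | n + 1 < L ∧ s n ≤ t n ∧ t (n + 1) < s (n + 1)} := by
      ext n
      simp only [mem_ofPred_eq, mem_insert_iff]
      constructor
      · rintro ⟨h1, h2, h3⟩
        by_cases hnL : n + 1 < L
        · right
          rw [hs''s' n (by omega), hs's n (by omega), ht't n (by omega)] at h2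
          rw [hs''s' (n + 1) (by omega), hs's (n + 1) (by omega), ht't (n + 1) (by omega)] at h3
          exact ⟨hnL, h2, h3⟩
        · left
          by_contra hne
          rcases lt_or_ge (n + 1) n₁ with hlt | hge
          · -- s'' (n+1) ≤ t' (n+1)
            rw [hs''s' (n + 1) hlt] at h3
            have h4 := hs'mono (n + 1) (n₁ - 1) (by omega) (by omega)
            have h5 := ht'mono L (n + 1) (by omega) (by omega)
            omega
          · -- n ≥ n₁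
            have hn : n₁ ≤ n := by omega
            have h4 := hs''mono n₁ n hn (by omega)
            have h5 := ht'mono n (n₂ - 1) (by omega) (by omega)
            omega
      · rintro (rfl | ⟨h1, h2, h3⟩)
        · refine ⟨by omega, ?_, ?_⟩
          · rw [hs''s' (n₁ - 1) (by omega)]
            have h5 := ht'mono L (n₁ - 1) (by omega) (by omega)
            omega
          · have h6 : n₁ - 1 + 1 = n₁ := by omega
            rw [h6]
            have h5 := ht'mono n₁ (n₂ - 1) (by omega) (by omega)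
            omega
        · refine ⟨by omega, ?_, ?_⟩
          · rw [hs''s' n (by omega), hs's n (by omega), ht't n (by omega)]
            exact h2
          · rw [hs''s' (n + 1) (by omega), hs's (n + 1) (by omega), ht't (n + 1) (by omega)]
            exact h3
    have hfin : {n | n + 1 < L ∧ s n ≤ t n ∧ t (n + 1) < s (n + 1)}.Finite := by
      refine (finite_Iio L).subset ?_
      intro n hn
      have h1 : n + 1 < L := hn.1
      exact (show n < L by omega)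
    have hni : (n₁ - 1) ∉ {n | n + 1 < L ∧ s n ≤ t n ∧ t (n + 1) < s (n + 1)} := by
      intro hmem
      have h1 : n₁ - 1 + 1 < L := hmem.1
      omega
    rw [heq, ncard_insert_of_notMem hni hfin, hcard]

theorem goal_OSC : Goal_OSC := by
  intro g hg
  refine ⟨fun α β => {n | g α n ≤ g β n ∧ g β (n + 1) < g α (n + 1)}.ncard, ?_⟩
  intro Γ hΓ k
  obtain ⟨δ, hδ⟩ := exists_delta g Γ
  -- Γ₁
  have hΓδ : ¬ (Γ ∩ Ioi δ).Countable := by
    intro hc
    have h1 : (Iic δ).Countable := by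
      have : (Iic δ : Set W) = insert δ (Iio δ) := by
        ext x
        simp [le_iff_eq_or_lt]
      rw [this]
      exact (W_Iio δ).insert δ
    apply hΓ
    refine (hc.union h1).mono ?_
    intro x hx
    rcases lt_or_ge δ x with h | h
    · exact Or.inl ⟨hx, h⟩
    · exact Or.inr h
  have hev : ∀ β, ∃ m, δ < β → ∀ n ≥ m, g δ n ≤ g β n := by
    intro β
    by_cases h : δ < β
    · obtain ⟨m, hm⟩ := eventually_atTop.1 (hg.chain δ β h)
      exact ⟨m, fun _ => hm⟩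
    · exact ⟨0, fun h' => absurd h' h⟩
  choose M hM using hev
  obtain ⟨m, hm⟩ := exists_fiber hΓδ M
  set Γ₁ := {β | β ∈ Γ ∩ Ioi δ ∧ M β = m} with hΓ₁
  have hst : ∀ k, St g Γ Γ₁ m k := by
    intro k
    induction k with
    | zero => exact st_zero hg (fun β hβ => hβ.1.1) hm m
    | succ k ih => exact st_succ hg ih
  obtain ⟨L, s, t, B, hmL, hB, hunc, hCB, hBr, hcard⟩ := hst k
  obtain ⟨α, hαΓ, hαs, hαδ⟩ := hδ L s hunc
  obtain ⟨n₀, hn₀⟩ := eventually_atTop.1 (hg.chain α δ hαδ)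
  set n₁ := max n₀ L with hn₁
  have hne : {β | β ∈ B ∧ g α n₁ ≤ g β L}.Nonempty := by
    rcases Set.eq_empty_or_nonempty {β | β ∈ B ∧ g α n₁ ≤ g β L} with h0 | h0
    · exact absurd (by rw [h0]; exact countable_empty) (hBr (g α n₁))
    · exact h0
  obtain ⟨β, hβB, hβ⟩ := hne
  have hβΓ₁ := hB hβB
  have hle : ∀ n ≥ L, g α n ≤ g β n := by
    intro n hn
    rcases le_total n n₁ with h | h
    · exact (hg.mono α h).trans (hβ.trans (hg.mono β hn))
    · have h2 : n₀ ≤ n := (le_max_left _ _).trans h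
      have h3 := hM β hβΓ₁.1.2 n (by rw [hβΓ₁.2]; omega)
      exact (hn₀ n h2).trans h3
  refine ⟨α, hαΓ, β, hβΓ₁.1.1, hαδ.trans hβΓ₁.1.2, ?_⟩
  have heq : {n | g α n ≤ g β n ∧ g β (n + 1) < g α (n + 1)} =
      {n | n + 1 < L ∧ s n ≤ t n ∧ t (n + 1) < s (n + 1)} := by
    ext n
    simp only [mem_ofPred_eq]
    constructor
    · rintro ⟨h1, h2⟩
      have hnL : n + 1 < L := by
        by_contra hge
        have := hle (n + 1) (not_lt.1 hge)
        omega
      refine ⟨hnL, ?_, ?_⟩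
      · rw [← hαs n (by omega), ← hCB β hβB n (by omega)]
        exact h1
      · rw [← hαs (n + 1) hnL, ← hCB β hβB (n + 1) hnL]
        exact h2
    · rintro ⟨hnL, h1, h2⟩
      rw [← hαs n (by omega), ← hCB β hβB n (by omega)] at h1
      rw [← hαs (n + 1) hnL, ← hCB β hβB (n + 1) hnL] at h2
      exact ⟨h1, h2⟩
  show {n | g α n ≤ g β n ∧ g β (n + 1) < g α (n + 1)}.ncard = k
  rw [heq, hcard]

end Pool.Agent.Helper64.SB
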